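import Pool.Agent.Helper97.Ku.GoalsG

/-! Packet RZF of MP_47bc22_lc: sets named by names of functions. -/

namespace Pool.Agent.Helper97.Ku.PkRZF

open BSet

universe u

section

variable {Ω : Type u} [LinearOrder Ω] [WellFoundedLT Ω] {L : Type u} [CompleteBooleanAlgebra L]

theorem mem_set (f : FN Ω L) (x : BSet L) :
    x.mem f.set = ⨆ t : Ω × Ω, (f.v t.1 t.2 ⊓ x.eq (kpr (ck t.1) (ck t.2))) := rfl

theorem set_eq_ck (hCHK : ∀ a b : Ω, (ck a : BSet L).eq (ck b) = bo (a = b))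
    (hW : ∀ (a : WN Ω L) (i : Ω), a.v i ≤ a.set.eq (ck i)) (a : WN Ω L) (i : Ω) :
    a.set.eq (ck i) = a.v i := by
  apply le_antisymm _ (hW a i)
  have h1 : a.set.eq (ck i) = ⨆ j, (a.set.eq (ck i) ⊓ a.v j) := by
    rw [← inf_iSup_eq, a.tot, inf_top_eq]
  rw [h1]
  refine iSup_le fun j => ?_
  by_cases hj : j = i
  · rw [hj]
    exact inf_le_right
  · have h2 : a.set.eq (ck i) ⊓ a.v j ≤ (ck i : BSet L).eq (ck j) := by
      refine le_trans ?_ (eq_trans (ck i) a.set (ck j))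
      refine inf_le_inf ?_ (hW a j)
      rw [eq_comm']
    rw [hCHK i j, bo_false (fun h => hj h.symm)] at h2
    exact le_trans h2 bot_le

theorem part1 (hCHK : ∀ a b : Ω, (ck a : BSet L).eq (ck b) = bo (a = b))
    (hP : ∀ a b c d : BSet L, (kpr a b).eq (kpr c d) = a.eq c ⊓ b.eq d)
    (hW : ∀ (a : WN Ω L) (i : Ω), a.v i ≤ a.set.eq (ck i)) (G : Grd Ω)
    (f : FN Ω L) (a b : WN Ω L) :
    (kpr a.set b.set).mem f.set = (M1 G L).ap f a b := by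
  rw [mem_set, iSup_prod]
  show _ = ⨆ i, ⨆ j, (a.v i ⊓ b.v j ⊓ f.v i j)
  refine iSup_congr fun i => iSup_congr fun j => ?_
  show f.v i j ⊓ (kpr a.set b.set).eq (kpr (ck i) (ck j)) = _
  rw [hP, set_eq_ck hCHK hW, set_eq_ck hCHK hW, inf_comm]

/-- The function named by a set. -/
noncomputable def fnOf (m : Ω → Ω → L) (c : L) (c0 : Ω) (h1 : ∀ i, c ≤ ⨆ j, m i j)
    (h2 : ∀ i j k, j ≠ k → c ≤ (m i j ⊓ m i k)ᶜ) : FN Ω L where
  v i j := (c ⊓ m i j) ⊔ (cᶜ ⊓ bo (j = c0))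
  tot i := by
    rw [eq_top_iff, ← sup_compl_eq_top (x := c)]
    refine sup_le ?_ ?_
    · have : c ≤ ⨆ j, (c ⊓ m i j) := by
        rw [← inf_iSup_eq]
        exact le_inf le_rfl (h1 i)
      refine le_trans this (iSup_mono fun j => le_sup_left)
    · refine le_trans ?_ (le_iSup _ c0)
      refine le_trans ?_ le_sup_right
      rw [bo_true rfl, inf_top_eq]
  fn i j k h := by
    have e1 : c ⊓ m i j ⊓ (c ⊓ m i k) = ⊥ := by
      rw [eq_bot_iff]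
      have : c ⊓ m i j ⊓ (c ⊓ m i k) ≤ (m i j ⊓ m i k) ⊓ (m i j ⊓ m i k)ᶜ := by
        refine le_inf (inf_le_inf inf_le_right inf_le_right) ?_
        exact le_trans (le_trans inf_le_left inf_le_left) (h2 i j k h)
      rwa [inf_compl_eq_bot] at this
    have e2 : c ⊓ m i j ⊓ (cᶜ ⊓ bo (k = c0)) = ⊥ := by
      rw [eq_bot_iff, ← inf_compl_eq_bot (a := c)]
      exact le_inf (le_trans inf_le_left inf_le_left) (le_trans inf_le_right inf_le_left)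
    have e3 : cᶜ ⊓ bo (j = c0) ⊓ (c ⊓ m i k) = ⊥ := by
      rw [eq_bot_iff, ← inf_compl_eq_bot (a := c)]
      exact le_inf (le_trans inf_le_right inf_le_left) (le_trans inf_le_left inf_le_left)
    have e4 : cᶜ ⊓ bo (j = c0) ⊓ (cᶜ ⊓ bo (k = c0)) = ⊥ := by
      by_cases hj : j = c0
      · have hk : ¬ k = c0 := fun hk => h (hj.trans hk.symm)
        rw [bo_false hk, inf_bot_eq, inf_bot_eq]
      · rw [bo_false hj, inf_bot_eq, bot_inf_eq]
    rw [inf_sup_left, inf_sup_right, inf_sup_right, e1, e2, e3, e4]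
    simp

theorem part2 (G : Grd Ω) (g : BSet L) : ∃ f : FN Ω L,
    (⨅ z : BSet L, (z.mem g ⇨ ⨆ i : Ω, ⨆ j : Ω, z.eq (kpr (ck i) (ck j)))) ⊓
    (⨅ i : Ω, ⨆ j : Ω, (kpr (ck i) (ck j)).mem g) ⊓
    (⨅ i : Ω, ⨅ j : Ω, ⨅ k : Ω, ⨅ _ : j ≠ k,
      ((kpr (ck i) (ck j)).mem g ⊓ (kpr (ck i) (ck k)).mem g)ᶜ) ≤ g.eq f.set := by
  set A : L := ⨅ z : BSet L, (z.mem g ⇨ ⨆ i : Ω, ⨆ j : Ω, z.eq (kpr (ck i) (ck j))) with hA
  set B : L := ⨅ i : Ω, ⨆ j : Ω, (kpr (ck i) (ck j)).mem g with hB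
  set C : L := ⨅ i : Ω, ⨅ j : Ω, ⨅ k : Ω, ⨅ _ : j ≠ k,
      ((kpr (ck i) (ck j)).mem g ⊓ (kpr (ck i) (ck k)).mem g)ᶜ with hC
  have h1 : ∀ i, B ⊓ C ≤ ⨆ j, (kpr (ck i) (ck j)).mem g := fun i =>
    le_trans inf_le_left (iInf_le _ i)
  have h2 : ∀ i j k, j ≠ k → B ⊓ C ≤ ((kpr (ck i) (ck j)).mem g ⊓ (kpr (ck i) (ck k)).mem g)ᶜ :=
    fun i j k h => le_trans inf_le_right
      (le_trans (iInf_le _ i) (le_trans (iInf_le _ j) (le_trans (iInf_le _ k) (iInf_le _ h))))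
  refine ⟨fnOf (fun i j => (kpr (ck i) (ck j)).mem g) (B ⊓ C) G.c0 h1 h2, ?_⟩
  set f := fnOf (fun i j => (kpr (ck i) (ck j)).mem g) (B ⊓ C) G.c0 h1 h2 with hf
  have hv : ∀ i j, f.v i j = ((B ⊓ C) ⊓ (kpr (ck i) (ck j)).mem g) ⊔
      ((B ⊓ C)ᶜ ⊓ bo (j = G.c0)) := fun i j => rfl
  refine le_trans ?_ (ext_le g f.set)
  refine le_iInf fun z => le_inf ?_ ?_
  · rw [le_himp_iff, mem_set]
    have e1 : A ⊓ B ⊓ C ⊓ z.mem g ≤
        (⨆ i : Ω, ⨆ j : Ω, z.eq (kpr (ck i) (ck j))) ⊓ (z.mem g ⊓ (B ⊓ C)) := by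
      refine le_inf ?_ (le_inf inf_le_right ?_)
      · rw [← le_himp_iff]
        exact le_trans (le_trans inf_le_left inf_le_left) (iInf_le _ z)
      · exact le_trans inf_le_left (inf_le_inf_right _ inf_le_right)
    refine le_trans e1 ?_
    rw [iSup_prod]
    simp only [iSup_inf_eq]
    refine iSup_mono fun i => iSup_mono fun j => ?_
    refine le_inf ?_ inf_le_left
    rw [hv]
    refine le_trans ?_ le_sup_left
    refine le_inf (le_trans inf_le_right inf_le_right) ?_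
    refine le_trans ?_ (mem_congr_left z (kpr (ck i) (ck j)) g)
    exact inf_le_inf_left _ inf_le_left
  · rw [le_himp_iff, mem_set, inf_iSup_eq]
    refine iSup_le fun t => ?_
    obtain ⟨i, j⟩ := t
    show A ⊓ B ⊓ C ⊓ (f.v i j ⊓ z.eq (kpr (ck i) (ck j))) ≤ z.mem g
    have e1 : (B ⊓ C) ⊓ f.v i j ≤ (kpr (ck i) (ck j)).mem g := by
      rw [hv, inf_sup_left]
      refine sup_le (le_trans inf_le_right inf_le_right) ?_
      rw [← inf_assoc, inf_compl_eq_bot, bot_inf_eq]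
      exact bot_le
    refine le_trans ?_ (mem_congr_left (kpr (ck i) (ck j)) z g)
    refine le_inf ?_ (le_trans ?_ e1)
    · rw [eq_comm' (kpr (ck i) (ck j)) z]
      exact le_trans inf_le_right inf_le_right
    · refine le_inf ?_ (le_trans inf_le_right inf_le_left)
      exact le_trans inf_le_left (inf_le_inf_right _ inf_le_right)

end

theorem rzf : G_UFEX.{u} → G_CHK.{u} → G_PRN.{u} → G_RZW.{u} → G_RZF.{u} := by
  intro hUF hCHK hPRN hRZW Ω _ _ L _ G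
  refine ⟨?_, part2 G⟩
  intro f a b
  by_cases hL : (⊤ : L) = ⊥
  · have := subsingleton_of_bot_eq_top hL.symm
    exact Subsingleton.elim _ _
  · obtain ⟨U, _⟩ := hUF L ⊤ hL
    exact part1 (hCHK Ω L G U).2.2.1 (hPRN L U).2.1 (hRZW Ω L G U).1 G f a b

end Pool.Agent.Helper97.Ku.PkRZF
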