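import Pool.Agent.Helper97.Ku.GoalsC

/-! Packet LIM of MP_47bc22_lc: limits of decreasing sequences. -/

namespace Pool.Agent.Helper97.Ku.PkLIM

open Set

theorem desc_le {p : ℕ → Cond} (h : Desc p) {k j : ℕ} (hkj : k ≤ j) : p j ≤ p k := by
  induction j, hkj using Nat.le_induction with
  | base => exact le_refl _
  | succ j _ ih => exact (h j).trans ih

theorem row_val {p : Cond} {ξ : Kap} {x : Val} (h : p.v (.row ξ) = some x) :
    ∃ s, x = .nd s ∧ s ∈ p.S := by
  have h1 := p.v_ok _ _ h
  cases x with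
  | nd s => exact ⟨s, rfl, h1⟩
  | od η => exact absurd h1 (by simp [Ok])

theorem col_val {p : Cond} {ξ : Kap} {ν : Om} {x : Val} (h : p.v (.col ξ ν) = some x) :
    ∃ η, x = .od η ∧ η < ξ := by
  have h1 := p.v_ok _ _ h
  cases x with
  | nd s => exact absurd h1 (by simp [Ok])
  | od η => exact ⟨η, rfl, h1⟩

/-- The row condition. -/
def RowP (p : ℕ → Cond) (B : Set (Set Om)) (ξ : Kap) (t : Set Om) : Prop :=
  t ∈ B ∧ ∃ k, ∀ j, k ≤ j → (p j).v (.row ξ) = some (.nd (t ∩ Iio (p j).g))

/-- The column condition. -/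
def ColP (p : ℕ → Cond) (ξ : Kap) (ν : Om) (η : Kap) : Prop :=
  ∃ k, (p k).v (.col ξ ν) = some (.od η)

open Classical in
/-- The values of the limit. -/
noncomputable def limv (p : ℕ → Cond) (B : Set (Set Om)) : Coord → Option Val
  | .row ξ => if h : ∃ t, RowP p B ξ t then some (.nd h.choose) else none
  | .col ξ ν => if h : ∃ η, ColP p ξ ν η then some (.od h.choose) else none

theorem limv_row {p : ℕ → Cond} {B : Set (Set Om)} {ξ : Kap} {x : Val}
    (h : limv p B (.row ξ) = some x) : ∃ t, x = .nd t ∧ RowP p B ξ t := by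
  unfold limv at h
  by_cases h1 : ∃ t, RowP p B ξ t
  · simp only [dif_pos h1, Option.some.injEq] at h
    exact ⟨h1.choose, h.symm, h1.choose_spec⟩
  · simp only [dif_neg h1] at h
    exact absurd h (by simp)

theorem limv_col {p : ℕ → Cond} {B : Set (Set Om)} {ξ : Kap} {ν : Om} {x : Val}
    (h : limv p B (.col ξ ν) = some x) : ∃ η, x = .od η ∧ ColP p ξ ν η := by
  unfold limv at h
  by_cases h1 : ∃ η, ColP p ξ ν η
  · simp only [dif_pos h1, Option.some.injEq] at h
    exact ⟨h1.choose, h.symm, h1.choose_spec⟩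
  · simp only [dif_neg h1] at h
    exact absurd h (by simp)

theorem limv_row_ex {p : ℕ → Cond} {B : Set (Set Om)} {ξ : Kap} {t : Set Om}
    (h : RowP p B ξ t) : ∃ t', limv p B (.row ξ) = some (.nd t') ∧ RowP p B ξ t' := by
  have h1 : ∃ t, RowP p B ξ t := ⟨t, h⟩
  refine ⟨h1.choose, ?_, h1.choose_spec⟩
  unfold limv
  simp only [dif_pos h1]

theorem limv_col_ex {p : ℕ → Cond} {B : Set (Set Om)} {ξ : Kap} {ν : Om} {η : Kap}
    (h : ColP p ξ ν η) : ∃ η', limv p B (.col ξ ν) = some (.od η') ∧ ColP p ξ ν η' := by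
  have h1 : ∃ η, ColP p ξ ν η := ⟨η, h⟩
  refine ⟨h1.choose, ?_, h1.choose_spec⟩
  unfold limv
  simp only [dif_pos h1]

theorem rowP_of {p : ℕ → Cond} {B : Set (Set Om)}
    (hr : ∀ ξ k s, (p k).v (.row ξ) = some (.nd s) →
      ∃ t ∈ B, ∀ j, k ≤ j → (p j).v (.row ξ) = some (.nd (t ∩ Iio (p j).g)))
    {ξ : Kap} {k : ℕ} {x : Val} (h : (p k).v (.row ξ) = some x) : ∃ t, RowP p B ξ t := by
  obtain ⟨s, rfl, _⟩ := row_val h
  obtain ⟨t, ht, ht'⟩ := hr ξ k s h
  exact ⟨t, ht, k, ht'⟩

theorem limv_supp {p : ℕ → Cond} {B : Set (Set Om)}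
    (hr : ∀ ξ k s, (p k).v (.row ξ) = some (.nd s) →
      ∃ t ∈ B, ∀ j, k ≤ j → (p j).v (.row ξ) = some (.nd (t ∩ Iio (p j).g))) (c : Coord) :
    limv p B c ≠ none ↔ ∃ k, (p k).v c ≠ none := by
  cases c with
  | row ξ =>
    constructor
    · intro h
      obtain ⟨x, hx⟩ := Option.ne_none_iff_exists'.mp h
      obtain ⟨t, _, _, k, hk⟩ := limv_row hx
      exact ⟨k, by rw [hk k le_rfl]; simp⟩
    · rintro ⟨k, hk⟩
      obtain ⟨x, hx⟩ := Option.ne_none_iff_exists'.mp hk
      obtain ⟨t, ht⟩ := rowP_of hr hx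
      obtain ⟨t', ht', _⟩ := limv_row_ex ht
      rw [ht']; simp
  | col ξ ν =>
    constructor
    · intro h
      obtain ⟨x, hx⟩ := Option.ne_none_iff_exists'.mp h
      obtain ⟨η, _, k, hk⟩ := limv_col hx
      exact ⟨k, by rw [hk]; simp⟩
    · rintro ⟨k, hk⟩
      obtain ⟨x, hx⟩ := Option.ne_none_iff_exists'.mp hk
      obtain ⟨η, rfl, _⟩ := col_val hx
      obtain ⟨t', ht', _⟩ := limv_col_ex (B := B) (⟨k, hx⟩ : ColP p ξ ν η)
      rw [ht']; simp

/-- LIM. -/
theorem lim : G_LIM := by
  intro p γ B hD hg hcof hBc hB1 hB2 hr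
  have hBne : B.Nonempty := by
    obtain ⟨s, hs⟩ := (p 0).S_ne
    obtain ⟨t, ht, _⟩ := hB2 0 s hs
    exact ⟨t, ht⟩
  let q : Cond :=
    { g := γ
      S := B
      v := limv p B
      S_ct := hBc
      S_ne := hBne
      S_sub := fun s hs => (hB1 s hs).1
      S_spl := by
        intro t ht β hβ
        obtain ⟨k, hk⟩ := hcof β hβ
        obtain ⟨s', hs', h1, h2⟩ := (p k).S_spl _ ((hB1 t ht).2 k) β hk
        obtain ⟨t', ht', h3⟩ := hB2 k s' hs'
        refine ⟨t', ht', ?_, ?_⟩
        · have h4 := inter_inter_Iio hk.le t'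
          have h5 := inter_inter_Iio hk.le t
          rw [h3] at h4
          rw [← h4, h1, h5]
        · intro h4
          apply h2
          rw [← h3]
          simp only [mem_inter_iff, mem_Iio]
          constructor
          · rintro ⟨h5, h6⟩; exact ⟨h4.1 h5, h6⟩
          · rintro ⟨h5, h6⟩; exact ⟨h4.2 h5, h6⟩
      v_ct := by
        have h1 : {c | limv p B c ≠ none} ⊆ ⋃ k, (p k).supp := by
          intro c hc
          obtain ⟨k, hk⟩ := (limv_supp hr c).1 hc
          exact mem_iUnion.2 ⟨k, hk⟩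
        exact (countable_iUnion fun k => (p k).supp_countable).mono h1
      v_ok := by
        intro c x hx
        cases c with
        | row ξ =>
          obtain ⟨t, rfl, ht, _⟩ := limv_row hx
          exact ht
        | col ξ ν =>
          obtain ⟨η, rfl, k, hk⟩ := limv_col hx
          exact (p k).v_ok _ _ hk }
  refine ⟨q, rfl, rfl, fun k => ⟨hg k, ?_, fun c x hx => ?_⟩, ?_⟩
  · ext s
    constructor
    · rintro ⟨t, ht, rfl⟩
      exact (hB1 t ht).2 k
    · intro hs
      obtain ⟨t, ht, hts⟩ := hB2 k s hs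
      exact ⟨t, ht, hts⟩
  · cases c with
    | row ξ =>
      obtain ⟨s, rfl, _⟩ := row_val hx
      obtain ⟨t0, ht0⟩ := rowP_of hr hx
      obtain ⟨t, ht, _, k0, hk0⟩ := limv_row_ex ht0
      refine ⟨.nd t, ht, ?_⟩
      have h1 := desc_le hD (le_max_left k k0)
      obtain ⟨y, hy, hy'⟩ := h1.2.2 _ _ hx
      rw [hk0 _ (le_max_right k k0)] at hy
      simp only [Option.some.injEq] at hy
      rw [← hy] at hy'
      rw [← hy']
      simp only [Val.res, Val.nd.injEq]
      exact (inter_inter_Iio h1.1 t).symm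
    | col ξ ν =>
      obtain ⟨η, rfl, _⟩ := col_val hx
      obtain ⟨η', ht, k0, hk0⟩ := limv_col_ex (B := B) (⟨k, hx⟩ : ColP p ξ ν η)
      refine ⟨.od η', ht, ?_⟩
      obtain ⟨y, hy, hy'⟩ := (desc_le hD (le_max_left k k0)).2.2 _ _ hx
      obtain ⟨z, hz, hz'⟩ := (desc_le hD (le_max_right k k0)).2.2 _ _ hk0
      rw [hy] at hz
      simp only [Option.some.injEq] at hz
      subst hz
      cases y with
      | nd s => simp [Val.res] at hy'
      | od a =>
        simp only [Val.res, Val.od.injEq] at hy' hz'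
        simp only [Val.res, Val.od.injEq]
        rw [← hy', ← hz']
  · ext c
    simp only [mem_iUnion]
    exact limv_supp hr c

theorem rs_eq_v {p p' : Cond} {D : Set Coord} (h : p.rs D = p'.rs D) {c : Coord}
    (hc : c ∈ D) : p.v c = p'.v c := by
  rw [← p.rs_v_mem hc, ← p'.rs_v_mem hc, h]

theorem rs_eq_g {p p' : Cond} {D : Set Coord} (h : p.rs D = p'.rs D) : p.g = p'.g := by
  rw [← p.rs_g D, ← p'.rs_g D, h]

/-- LIMU. -/
theorem limu : G_LIMU := by
  intro p p' q q' D hD hD' hg hS hcof hq hq' hs hs' hrs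
  refine Cond.ext hg hS ?_
  funext c
  by_cases hc : c ∈ D
  swap
  · rw [q.rs_v_not hc, q'.rs_v_not hc]
  rw [q.rs_v_mem hc, q'.rs_v_mem hc]
  have hiff : (q.v c ≠ none) ↔ (q'.v c ≠ none) := by
    change c ∈ q.supp ↔ c ∈ q'.supp
    rw [hs, hs', mem_iUnion, mem_iUnion]
    constructor
    · rintro ⟨k, hk⟩
      refine ⟨k, ?_⟩
      change (p' k).v c ≠ none
      rw [← rs_eq_v (hrs k) hc]; exact hk
    · rintro ⟨k, hk⟩
      refine ⟨k, ?_⟩
      change (p k).v c ≠ none
      rw [rs_eq_v (hrs k) hc]; exact hk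
  cases hqc : q.v c with
  | none =>
    cases hqc' : q'.v c with
    | none => rfl
    | some y => exact absurd hqc (hiff.2 (by rw [hqc']; simp))
  | some y =>
    cases hqc' : q'.v c with
    | none => exact absurd hqc' (hiff.1 (by rw [hqc]; simp))
    | some y' =>
      have hmem : c ∈ q.supp := by
        change q.v c ≠ none
        rw [hqc]; simp
      rw [hs, mem_iUnion] at hmem
      obtain ⟨k0, hk0⟩ := hmem
      obtain ⟨x0, hx0⟩ := Option.ne_none_iff_exists'.mp hk0
      have key : ∀ k, k0 ≤ k → y.res (p k).g = y'.res (p k).g := by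
        intro k hk
        obtain ⟨x, hx, _⟩ := (desc_le hD hk).2.2 _ _ hx0
        obtain ⟨z, hz, hz'⟩ := (hq k).2.2 _ _ hx
        have hx' : (p' k).v c = some x := by rw [← rs_eq_v (hrs k) hc]; exact hx
        obtain ⟨w, hw, hw'⟩ := (hq' k).2.2 _ _ hx'
        rw [hqc] at hz
        rw [hqc'] at hw
        simp only [Option.some.injEq] at hz hw
        subst hz hw
        rw [hz', ← hw', rs_eq_g (hrs k)]
      have hyok := q.v_ok _ _ hqc
      have hyok' := q'.v_ok _ _ hqc'
      cases y with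
      | od η =>
        cases y' with
        | nd s => have := key k0 le_rfl; simp [Val.res] at this
        | od η' =>
          have := key k0 le_rfl
          simp only [Val.res, Val.od.injEq] at this
          rw [this]
      | nd s =>
        cases y' with
        | od η' => have := key k0 le_rfl; simp [Val.res] at this
        | nd s' =>
          cases c with
          | col ξ ν => exact absurd hyok (by simp [Ok])
          | row ξ =>
            have h1 : s ⊆ Iio q.g := q.S_sub s hyok
            have h2 : s' ⊆ Iio q.g := by rw [hg]; exact q'.S_sub s' hyok'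
            have h3 : s = s' := by
              have h4 : ∀ β, β < q.g → (β ∈ s ↔ β ∈ s') := by
                intro β hβ
                obtain ⟨k, hk⟩ := hcof β hβ
                have hk' : β < (p (max k k0)).g :=
                  lt_of_lt_of_le hk (desc_le hD (le_max_left k k0)).1
                have h5 := key (max k k0) (le_max_right k k0)
                simp only [Val.res, Val.nd.injEq] at h5
                have h6 := Set.ext_iff.1 h5 β
                simp only [mem_inter_iff, mem_Iio, hk', and_true] at h6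
                exact h6
              ext β
              constructor
              · intro h; exact (h4 β (h1 h)).1 h
              · intro h; exact (h4 β (h2 h)).2 h
            rw [h3]

end Pool.Agent.Helper97.Ku.PkLIM
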