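import Pool.Agent.Helper97.Ku.GoalsD

/-! Packet SYN1 of MP_47bc22_lc: values of the formulas on trees and branches. -/

namespace Pool.Agent.Helper97.Ku.PkSYN1

open Set

set_option linter.unusedSectionVars false
set_option linter.unusedSimpArgs false

universe u v w

section Gen

variable {W : Type u} {F : Type v} {L : Type w} [CompleteBooleanAlgebra L] (M : BStr W F L)
  (i : ℕ → W) (e : ℕ → F)

theorem val_and (a b : SO) : (SO.and a b).val M i e = a.val M i e ⊓ b.val M i e := rfl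

theorem val_neg (a : SO) : (SO.neg a).val M i e = (a.val M i e)ᶜ := rfl

theorem val_or (a b : SO) : (SO.or a b).val M i e = a.val M i e ⊔ b.val M i e := by
  simp only [SO.or, SO.val, compl_inf, compl_compl]

theorem val_imp (a b : SO) : (SO.imp a b).val M i e = (a.val M i e ⇨ b.val M i e) := by
  simp only [SO.imp, SO.val, compl_inf, compl_compl, himp_eq]
  rw [sup_comm]

theorem val_all (k : ℕ) (a : SO) :
    (SO.all k a).val M i e = ⨅ x, a.val M (Function.update i k x) e := rfl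

theorem val_ex (k : ℕ) (a : SO) :
    (SO.ex k a).val M i e = ⨆ x, a.val M (Function.update i k x) e := by
  simp only [SO.ex, SO.val, compl_iInf, compl_compl]

theorem val_allF (k : ℕ) (a : SO) :
    (SO.allF k a).val M i e = ⨅ x, a.val M i (Function.update e k x) := rfl

theorem val_exF (k : ℕ) (a : SO) :
    (SO.exF k a).val M i e = ⨆ x, a.val M i (Function.update e k x) := by
  simp only [SO.exF, SO.val, compl_iInf, compl_compl]

theorem val_ap (f : ℕ) (a b : Tm) :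
    (SO.ap f a b).val M i e = M.ap (e f) (a.ev M i) (b.ev M i) := rfl

theorem val_lt (a b : Tm) : (SO.lt a b).val M i e = M.lt (a.ev M i) (b.ev M i) := rfl

theorem val_eq (a b : Tm) : (SO.eq a b).val M i e = M.eq (a.ev M i) (b.ev M i) := rfl

theorem val_om (a : Tm) : (SO.om a).val M i e = M.om (a.ev M i) := rfl

theorem val_R (f : ℕ) (a b : Tm) :
    (SO.R f a b).val M i e = M.ap (e f) (M.pr (a.ev M i) (b.ev M i)) M.c1 := rfl

theorem ev_V (k : ℕ) : (SO.V k).ev M i = i k := rfl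

theorem ev_c0 : Tm.c0.ev M i = M.c0 := rfl

theorem ev_c1 : Tm.c1.ev M i = M.c1 := rfl

theorem ev_pr (a b : Tm) : (Tm.pr a b).ev M i = M.pr (a.ev M i) (b.ev M i) := rfl

end Gen

theorem br_val (G : Grd Om) (i : ℕ → Om) (e : ℕ → FN Om BA) :
    SO.br.val (M0 G BA) i e = brFV G (e 0) (e 3) := by
  simp only [SO.br, val_and, val_neg, val_or, val_imp, val_all, val_ex, val_allF, val_exF,
    val_ap, val_lt, val_eq, val_om, val_R, ev_V, ev_c0, ev_c1, ev_pr, M0, Function.update_self,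
    Function.update_of_ne, ne_eq, Nat.reduceEqDiff, not_false_eq_true, OfNat.ofNat_ne_zero,
    OfNat.zero_ne_ofNat, one_ne_zero, zero_ne_one, OfNat.ofNat_ne_one, OfNat.one_ne_ofNat]
  rfl

theorem lst_val (G : Grd Om) (i : ℕ → Om) (e : ℕ → FN Om BA) :
    SO.lst.val (M0 G BA) i e = lstV G (e 2) (e 3) := by
  simp only [SO.lst, val_and, val_neg, val_or, val_imp, val_all, val_ex, val_allF, val_exF,
    val_ap, val_lt, val_eq, val_om, val_R, ev_V, ev_c0, ev_c1, ev_pr, M0, Function.update_self,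
    Function.update_of_ne, ne_eq, Nat.reduceEqDiff, not_false_eq_true, OfNat.ofNat_ne_zero,
    OfNat.zero_ne_ofNat, one_ne_zero, zero_ne_one, OfNat.ofNat_ne_one, OfNat.one_ne_ofNat]
  rfl

/-- The common part of the two formulas. -/
structure Com (G : Grd Om) (p : Cond) (x ht : FN Om BA) : Prop where
  char : ∀ k, p ∈ x.v k G.c0 ⊔ x.v k G.c1
  irr : ∀ i, p ∈ (Rv G x i i)ᶜ
  trans : ∀ i j k, p ∈ (Rv G x i j ⊓ Rv G x j k) ⇨ Rv G x i k
  lin : ∀ i j k, p ∈ (Rv G x i k ⊓ Rv G x j k) ⇨ (Rv G x i j ⊔ (bo (i = j) ⊔ Rv G x j i))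
  ht_lt : ∀ i j α β, p ∈ (Rv G x i j ⊓ (ht.v i α ⊓ ht.v j β)) ⇨ bo (α < β)
  ht_ex : ∀ j β α, p ∈ (ht.v j β ⊓ bo (α < β)) ⇨ ⨆ i, (Rv G x i j ⊓ ht.v i α)
  root : p ∈ ⨆ r, (ht.v r G.c0 ⊓ ⨅ i, (ht.v i G.c0 ⇨ bo (i = r)))
  split : ∀ i, p ∈ ⨆ j, ⨆ j', ((bo (j = j'))ᶜ ⊓ (Rv G x i j ⊓ (Rv G x i j' ⊓
    ⨅ k, ((Rv G x i k ⊓ Rv G x k j)ᶜ ⊓ (Rv G x i k ⊓ Rv G x k j')ᶜ))))
  pruned : ∀ i α β, p ∈ (ht.v i α ⊓ bo (α < β)) ⇨ ⨆ j, (Rv G x i j ⊓ ht.v j β)

theorem bo_compl (P : Prop) : (bo P : BA)ᶜ = bo (¬ P) := by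
  by_cases h : P
  · rw [bo_true h, bo_false (P := ¬ P) (not_not.2 h), compl_top]
  · rw [bo_false h, bo_true (P := ¬ P) h, compl_bot]

theorem com_iff (G : Grd Om) (p : Cond) (x ht : FN Om BA) : TreeF G p x ht ↔
    (Com G p x ht ∧
      ∀ α, p ∈ ⨆ e : FN Om BA, ⨅ j, (ht.v j α ⇨ ⨆ n, (bo (n < G.w0) ⊓ e.v n j))) := by
  constructor
  · intro h
    refine ⟨⟨h.char, h.irr, h.trans, h.lin, h.ht_lt, ?_, h.root, ?_, ?_⟩, h.cnt⟩
    · intro j β α
      by_cases hab : α < β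
      · rw [bo_true hab, inf_top_eq]
        exact h.ht_ex j α β hab
      · rw [bo_false hab, inf_bot_eq, bot_himp]
        exact RO.mem_top p
    · intro i
      have := h.split i
      simp only [bo_compl]
      exact this
    · intro i α β
      by_cases hab : α < β
      · rw [bo_true hab, inf_top_eq]
        exact h.pruned i α β hab
      · rw [bo_false hab, inf_bot_eq, bot_himp]
        exact RO.mem_top p
  · rintro ⟨h, hc⟩
    refine ⟨h.char, h.irr, h.trans, h.lin, h.ht_lt, ?_, h.root, ?_, ?_, hc⟩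
    · intro j α β hab
      have := h.ht_ex j β α
      rw [bo_true hab, inf_top_eq] at this
      exact this
    · intro i
      have := h.split i
      simp only [bo_compl] at this
      exact this
    · intro i α β hab
      have := h.pruned i α β
      rw [bo_true hab, inf_top_eq] at this
      exact this

theorem reg_val (G : Grd Om) (i : ℕ → Om) (e : ℕ → FN Om BA) (p : Cond) :
    p ∈ SO.reg.val (M0 G BA) i e ↔ (Com G p (e 0) (e 1) ∧
      ∀ α, p ∈ ⨆ e' : FN Om BA, ⨅ j, ((e 1).v j α ⇨ ⨆ n, (bo (n < G.w0) ⊓ e'.v n j))) := by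
  simp only [SO.reg, val_and, val_neg, val_or, val_imp, val_all, val_ex, val_allF, val_exF,
    val_ap, val_lt, val_eq, val_om, val_R, ev_V, ev_c0, ev_c1, ev_pr, M0, Function.update_self,
    Function.update_of_ne, ne_eq, Nat.reduceEqDiff, not_false_eq_true, OfNat.ofNat_ne_zero,
    OfNat.zero_ne_ofNat, one_ne_zero, zero_ne_one, OfNat.ofNat_ne_one, OfNat.one_ne_ofNat]
  simp only [RO.mem_inf, RO.mem_iInf]
  constructor
  · rintro ⟨h1, h2, h3, h4, h5, h6, h7, h8, h9, h10⟩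
    exact ⟨⟨h1, h2, h3, h4, h5, h6, h7, h8, h9⟩, h10⟩
  · rintro ⟨⟨h1, h2, h3, h4, h5, h6, h7, h8, h9⟩, h10⟩
    exact ⟨h1, h2, h3, h4, h5, h6, h7, h8, h9, h10⟩

theorem regU_val (G : Grd Om) (i : ℕ → Om) (e : ℕ → FN Om BA) (p : Cond) :
    p ∈ SO.regU.val (M0 G BA) i e ↔ (Com G p (e 0) (e 1) ∧
      ∀ δ j, p ∈ (e 1).v j δ ⇨ ⨆ n, (bo (n < G.w0) ⊓ (e 8).v (G.pi (δ, n)) j)) := by
  simp only [SO.regU, val_and, val_neg, val_or, val_imp, val_all, val_ex, val_allF, val_exF,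
    val_ap, val_lt, val_eq, val_om, val_R, ev_V, ev_c0, ev_c1, ev_pr, M0, Function.update_self,
    Function.update_of_ne, ne_eq, Nat.reduceEqDiff, not_false_eq_true, OfNat.ofNat_ne_zero,
    OfNat.zero_ne_ofNat, one_ne_zero, zero_ne_one, OfNat.ofNat_ne_one, OfNat.one_ne_ofNat]
  simp only [RO.mem_inf, RO.mem_iInf]
  constructor
  · rintro ⟨h1, h2, h3, h4, h5, h6, h7, h8, h9, h10⟩
    exact ⟨⟨h1, h2, h3, h4, h5, h6, h7, h8, h9⟩, h10⟩
  · rintro ⟨⟨h1, h2, h3, h4, h5, h6, h7, h8, h9⟩, h10⟩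
    exact ⟨h1, h2, h3, h4, h5, h6, h7, h8, h9, h10⟩

/-- SYN1. -/
theorem syn1 : G_SYN1 := by
  intro G i e
  refine ⟨fun p => ?_, br_val G i e, lst_val G i e, fun p => ?_⟩
  · rw [reg_val, com_iff]
  · rw [regU_val, com_iff]
    constructor
    · rintro ⟨h, hu⟩
      refine ⟨⟨h, fun α => ?_⟩, hu⟩
      refine le_iSup (fun e' : FN Om BA =>
        ⨅ j, ((e 1).v j α ⇨ ⨆ n, (bo (n < G.w0) ⊓ e'.v n j))) (dec G α (e 8)) p ?_
      rw [RO.mem_iInf]
      intro j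
      exact hu α j
    · rintro ⟨⟨h, _⟩, hu⟩
      exact ⟨h, hu⟩

end Pool.Agent.Helper97.Ku.PkSYN1
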